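import Pool.Agent.H92.RK.Targets

set_option autoImplicit false

/-!
Reverse Minkowski inequality.
-/

open MeasureTheory Set

namespace Pool.Agent.H53.RK

open Pool.Agent.H92.RK

theorem memLp_cont {u : ℝ → ℝ} (hu : Continuous u) (p : ENNReal) :
    MemLp u p (volume.restrict (Ioc (0 : ℝ) 1)) := by
  obtain ⟨C, hC⟩ := isCompact_Icc.exists_bound_of_continuousOn
    (hu.continuousOn (s := Icc (0 : ℝ) 1))
  refine MemLp.of_bound hu.aestronglyMeasurable C ?_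
  refine (ae_restrict_mem measurableSet_Ioc).mono fun x hx => ?_
  exact hC x (Ioc_subset_Icc_self hx)

/-- Hoelder -/
theorem hol {g f : ℝ → ℝ} (hg : Continuous g) (hf : Continuous f) (hg0 : ∀ x, 0 ≤ g x)
    (hf0 : ∀ x, 0 < f x) :
    ∫ x in (0 : ℝ)..1, g x ^ (2 / 3 : ℝ) ≤
      (∫ x in (0 : ℝ)..1, g x * f x ^ (-(1 / 3) : ℝ)) ^ (2 / 3 : ℝ) *
        (∫ x in (0 : ℝ)..1, f x ^ (2 / 3 : ℝ)) ^ (1 / 3 : ℝ) := by
  have hpq : (3 / 2 : ℝ).HolderConjugate 3 := by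
    rw [Real.holderConjugate_iff]
    constructor <;> norm_num
  have c1 : Continuous fun x => f x ^ (-(1 / 3) : ℝ) :=
    hf.rpow_const fun x => Or.inl (hf0 x).ne'
  have cu : Continuous fun x => (g x * f x ^ (-(1 / 3) : ℝ)) ^ (2 / 3 : ℝ) :=
    (hg.mul c1).rpow_const fun x => Or.inr (by norm_num)
  have cv : Continuous fun x => (f x ^ (2 / 3 : ℝ)) ^ (1 / 3 : ℝ) :=
    (hf.rpow_const fun x => Or.inl (hf0 x).ne').rpow_const fun x => Or.inr (by norm_num)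
  have nn : ∀ x, 0 ≤ g x * f x ^ (-(1 / 3) : ℝ) := fun x =>
    mul_nonneg (hg0 x) (Real.rpow_nonneg (hf0 x).le _)
  have key := integral_mul_le_Lp_mul_Lq_of_nonneg (μ := volume.restrict (Ioc (0 : ℝ) 1)) hpq
    (f := fun x => (g x * f x ^ (-(1 / 3) : ℝ)) ^ (2 / 3 : ℝ))
    (g := fun x => (f x ^ (2 / 3 : ℝ)) ^ (1 / 3 : ℝ))
    (Filter.Eventually.of_forall fun x => Real.rpow_nonneg (nn x) _)
    (Filter.Eventually.of_forall fun x => Real.rpow_nonneg (Real.rpow_nonneg (hf0 x).le _) _)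
    (memLp_cont cu _) (memLp_cont cv _)
  have e1 : ∀ x, (g x * f x ^ (-(1 / 3) : ℝ)) ^ (2 / 3 : ℝ) * (f x ^ (2 / 3 : ℝ)) ^ (1 / 3 : ℝ)
      = g x ^ (2 / 3 : ℝ) := fun x => by
    rw [Real.mul_rpow (hg0 x) (Real.rpow_nonneg (hf0 x).le _), ← Real.rpow_mul (hf0 x).le,
      ← Real.rpow_mul (hf0 x).le, mul_assoc, ← Real.rpow_add (hf0 x)]
    norm_num
  have e2 : ∀ x, ((g x * f x ^ (-(1 / 3) : ℝ)) ^ (2 / 3 : ℝ)) ^ (3 / 2 : ℝ) =
      g x * f x ^ (-(1 / 3) : ℝ) := fun x => by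
    rw [← Real.rpow_mul (nn x)]
    norm_num
  have e3 : ∀ x, ((f x ^ (2 / 3 : ℝ)) ^ (1 / 3 : ℝ)) ^ (3 : ℝ) = f x ^ (2 / 3 : ℝ) := fun x => by
    rw [← Real.rpow_mul (Real.rpow_nonneg (hf0 x).le _)]
    norm_num
  simp only [e1, e2, e3] at key
  rw [intervalIntegral.integral_of_le zero_le_one, intervalIntegral.integral_of_le zero_le_one,
    intervalIntegral.integral_of_le zero_le_one]
  have : (1 / (3 / 2) : ℝ) = 2 / 3 := by norm_num
  rw [this] at key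
  exact key

theorem pf_CIM : T_CIM := by
  intro h m hc h0 hm
  rcases hm.eq_or_lt with rfl | hm
  · have S0 : 0 ≤ ∫ x in (0 : ℝ)..1, h x ^ (2 / 3 : ℝ) :=
      intervalIntegral.integral_nonneg zero_le_one fun x _ => Real.rpow_nonneg (h0 x) _
    simp only [add_zero]
    rw [← Real.rpow_natCast, ← Real.rpow_mul S0]
    norm_num
  set f : ℝ → ℝ := fun x => h x + m with hf
  have hf0 : ∀ x, 0 < f x := fun x => by
    simp only [hf]
    linarith [h0 x]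
  have cf : Continuous f := hc.add continuous_const
  have c1 : Continuous fun x => f x ^ (-(1 / 3) : ℝ) :=
    cf.rpow_const fun x => Or.inl (hf0 x).ne'
  have c2 : Continuous fun x => f x ^ (2 / 3 : ℝ) :=
    cf.rpow_const fun x => Or.inl (hf0 x).ne'
  set T := ∫ x in (0 : ℝ)..1, f x ^ (2 / 3 : ℝ) with hT
  set A := ∫ x in (0 : ℝ)..1, h x * f x ^ (-(1 / 3) : ℝ) with hA
  set B := ∫ x in (0 : ℝ)..1, f x ^ (-(1 / 3) : ℝ) with hB
  set S := ∫ x in (0 : ℝ)..1, h x ^ (2 / 3 : ℝ) with hS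
  have S0 : 0 ≤ S :=
    intervalIntegral.integral_nonneg zero_le_one fun x _ => Real.rpow_nonneg (h0 x) _
  have A0 : 0 ≤ A := intervalIntegral.integral_nonneg zero_le_one fun x _ =>
    mul_nonneg (h0 x) (Real.rpow_nonneg (hf0 x).le _)
  have B0 : 0 ≤ B := intervalIntegral.integral_nonneg zero_le_one fun x _ =>
    Real.rpow_nonneg (hf0 x).le _
  have T0 : 0 ≤ T := intervalIntegral.integral_nonneg zero_le_one fun x _ =>
    Real.rpow_nonneg (hf0 x).le _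
  have hTAB : T = A + m * B := by
    have i1 : IntervalIntegrable (fun x => h x * f x ^ (-(1 / 3) : ℝ)) volume 0 1 :=
      (hc.mul c1).intervalIntegrable _ _
    have i2 : IntervalIntegrable (fun x => m * f x ^ (-(1 / 3) : ℝ)) volume 0 1 :=
      (continuous_const.mul c1).intervalIntegrable _ _
    rw [hT, hA, hB, ← intervalIntegral.integral_const_mul, ← intervalIntegral.integral_add i1 i2]
    refine intervalIntegral.integral_congr fun x _ => ?_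
    have : f x ^ (2 / 3 : ℝ) = f x * f x ^ (-(1 / 3) : ℝ) := by
      rw [← Real.rpow_one_add' (hf0 x).le (by norm_num)]
      norm_num
    simp only [this]
    simp only [hf]
    ring
  have k1 := hol hc cf h0 hf0
  have k2 := hol (g := fun _ => (1 : ℝ)) continuous_const cf (fun _ => zero_le_one) hf0
  simp only [Real.one_rpow, one_mul, intervalIntegral.integral_const, sub_zero, smul_eq_mul,
    mul_one] at k2
  change S ≤ A ^ (2 / 3 : ℝ) * T ^ (1 / 3 : ℝ) at k1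
  change 1 ≤ B ^ (2 / 3 : ℝ) * T ^ (1 / 3 : ℝ) at k2
  have g1 : S ^ (3 / 2 : ℝ) ≤ A * T ^ (1 / 2 : ℝ) := by
    calc S ^ (3 / 2 : ℝ) ≤ (A ^ (2 / 3 : ℝ) * T ^ (1 / 3 : ℝ)) ^ (3 / 2 : ℝ) :=
          Real.rpow_le_rpow S0 k1 (by norm_num)
      _ = A * T ^ (1 / 2 : ℝ) := by
          rw [Real.mul_rpow (Real.rpow_nonneg A0 _) (Real.rpow_nonneg T0 _), ← Real.rpow_mul A0,
            ← Real.rpow_mul T0]
          norm_num
  have g2 : 1 ≤ B * T ^ (1 / 2 : ℝ) := by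
    calc (1 : ℝ) = (1 : ℝ) ^ (3 / 2 : ℝ) := (Real.one_rpow _).symm
      _ ≤ (B ^ (2 / 3 : ℝ) * T ^ (1 / 3 : ℝ)) ^ (3 / 2 : ℝ) :=
          Real.rpow_le_rpow zero_le_one k2 (by norm_num)
      _ = B * T ^ (1 / 2 : ℝ) := by
          rw [Real.mul_rpow (Real.rpow_nonneg B0 _) (Real.rpow_nonneg T0 _), ← Real.rpow_mul B0,
            ← Real.rpow_mul T0]
          norm_num
  have g3 : S ^ (3 / 2 : ℝ) + m ≤ T * T ^ (1 / 2 : ℝ) := by
    have := mul_le_mul_of_nonneg_left g2 hm.le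
    have e : T * T ^ (1 / 2 : ℝ) = A * T ^ (1 / 2 : ℝ) + m * (B * T ^ (1 / 2 : ℝ)) := by
      nth_rewrite 1 [hTAB]
      ring
    rw [e]
    linarith
  have g4 : (T ^ (1 / 2 : ℝ)) ^ 2 = T := by
    rw [← Real.rpow_natCast, ← Real.rpow_mul T0]
    norm_num
  have g5 : 0 ≤ S ^ (3 / 2 : ℝ) + m := by
    have := Real.rpow_nonneg S0 (3 / 2 : ℝ)
    linarith
  calc (S ^ (3 / 2 : ℝ) + m) ^ 2 ≤ (T * T ^ (1 / 2 : ℝ)) ^ 2 := pow_le_pow_left₀ g5 g3 2
    _ = T ^ 3 := by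
      rw [mul_pow, g4]
      ring

end Pool.Agent.H53.RK
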